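import Pool.Agent.Helper26.KD.StT

/-!
# Project CB (MP_65faa7, bulk case), block T0, module TayC
Taylor expansion of the truncated weight
-/

set_option autoImplicit false

open scoped BigOperators ENNReal Topology
open Pool.LE Pool.NL Filter

namespace Pool.KD

namespace TayCM

/-- Taylor expansion of third order in one variable -/
theorem taylor {f f1 f2 f3 : ℝ → ℝ} {B : ℝ} (h0 : ∀ t ∈ Set.Icc (0 : ℝ) 1, HasDerivAt f (f1 t) t)
    (h1 : ∀ t ∈ Set.Icc (0 : ℝ) 1, HasDerivAt f1 (f2 t) t) (h2 : ∀ t ∈ Set.Icc (0 : ℝ) 1, HasDerivAt f2 (f3 t) t)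
    (hB : ∀ t ∈ Set.Icc (0 : ℝ) 1, |f3 t| ≤ B) : |f 1 - f 0 - f1 0 - f2 0 / 2| ≤ B := by
  have z0 : (0 : ℝ) ∈ Set.Icc (0 : ℝ) 1 := ⟨le_refl _, zero_le_one⟩
  have z1 : (1 : ℝ) ∈ Set.Icc (0 : ℝ) 1 := ⟨zero_le_one, le_refl _⟩
  have hB0 : 0 ≤ B := (abs_nonneg _).trans (hB 0 z0)
  have key : ∀ (g g' : ℝ → ℝ), (∀ t ∈ Set.Icc (0 : ℝ) 1, HasDerivAt g (g' t) t) →
      (∀ t ∈ Set.Icc (0 : ℝ) 1, |g' t| ≤ B) → ∀ t ∈ Set.Icc (0 : ℝ) 1, |g t - g 0| ≤ B := by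
    intro g g' hg hb t ht
    have h := (convex_Icc (0 : ℝ) 1).norm_image_sub_le_of_norm_hasDerivWithin_le
      (f := g) (f' := g') (C := B) (fun x hx => (hg x hx).hasDerivWithinAt) (fun x hx => hb x hx) z0 ht
    rw [Real.norm_eq_abs, Real.norm_eq_abs, sub_zero] at h
    have h3 : |t| ≤ 1 := by
      rw [abs_of_nonneg ht.1]
      exact ht.2
    calc |g t - g 0| ≤ B * |t| := h
      _ ≤ B * 1 := mul_le_mul_of_nonneg_left h3 hB0
      _ = B := mul_one B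
  have k2 := key f2 f3 h2 hB
  have k1 := key (fun t => f1 t - t * f2 0) (fun t => f2 t - f2 0) (fun t ht => by
    have h := (h1 t ht).sub ((hasDerivAt_id t).mul_const (f2 0))
    rw [one_mul] at h
    exact h) k2
  have k0 := key (fun t => f t - t * f1 0 - t ^ 2 * (f2 0 / 2)) (fun t => f1 t - f1 0 - t * f2 0) (fun t ht => by
    have h := ((h0 t ht).sub ((hasDerivAt_id t).mul_const (f1 0))).sub ((hasDerivAt_pow 2 t).mul_const (f2 0 / 2))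
    rw [one_mul] at h
    have e : f1 t - f1 0 - ((2 : ℕ) : ℝ) * t ^ (2 - 1) * (f2 0 / 2) = f1 t - f1 0 - t * f2 0 := by
      norm_num
      ring
    rw [e] at h
    exact h) (fun t ht => by
      have h := k1 t ht
      have e : f1 t - t * f2 0 - (f1 0 - 0 * f2 0) = f1 t - f1 0 - t * f2 0 := by ring
      rw [e] at h
      exact h)
  have h := k0 1 z1
  have e : f 1 - 1 * f1 0 - 1 ^ 2 * (f2 0 / 2) - (f 0 - 0 * f1 0 - 0 ^ 2 * (f2 0 / 2)) = f 1 - f 0 - f1 0 - f2 0 / 2 := by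
    ring
  rw [e] at h
  exact h

/-- powers of the positive part -/
theorem hpos (n : ℕ) (z : ℝ) : HasDerivAt (fun z : ℝ => (max 0 z) ^ (n + 2)) (((n : ℝ) + 2) * (max 0 z) ^ (n + 1)) z := by
  have hne : ∀ y : ℝ, y ≠ 0 → HasDerivAt (fun z : ℝ => (max 0 z) ^ (n + 2)) (((n : ℝ) + 2) * (max 0 y) ^ (n + 1)) y := by
    intro y hy
    rcases lt_or_gt_of_ne hy with h | h
    · rw [max_eq_left h.le, zero_pow (Nat.succ_ne_zero n), mul_zero]
      refine (hasDerivAt_const y (0 : ℝ)).congr_of_eventuallyEq ?_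
      filter_upwards [gt_mem_nhds h] with x hx
      rw [max_eq_left (le_of_lt hx), zero_pow (by omega)]
    · rw [max_eq_right h.le]
      have h1 := hasDerivAt_pow (n + 2) y
      have e : ((n + 2 : ℕ) : ℝ) * y ^ (n + 2 - 1) = ((n : ℝ) + 2) * y ^ (n + 1) := by
        push_cast
        rfl
      rw [e] at h1
      refine h1.congr_of_eventuallyEq ?_
      filter_upwards [lt_mem_nhds h] with x hx
      rw [max_eq_right (le_of_lt hx)]
  by_cases hz : z = 0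
  · subst hz
    have hc : Continuous (fun z : ℝ => max 0 z) := continuous_const.max continuous_id
    exact hasDerivAt_of_hasDerivAt_of_ne (fun y hy => hne y hy) (hc.pow _).continuousAt
      ((hc.pow _).const_mul _).continuousAt
  · exact hne z hz

/-- the one-variable functions -/
noncomputable def KK (e z : ℝ) : ℝ := max 0 (1 - z * e)

noncomputable def g0 (p e z : ℝ) : ℝ := (1 + z) ^ p * KK e z ^ 4

noncomputable def g1 (p e z : ℝ) : ℝ := p * (1 + z) ^ (p - 1) * KK e z ^ 4 - 4 * e * (1 + z) ^ p * KK e z ^ 3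

noncomputable def g2 (p e z : ℝ) : ℝ := p * (p - 1) * (1 + z) ^ (p - 2) * KK e z ^ 4 -
  8 * e * p * (1 + z) ^ (p - 1) * KK e z ^ 3 + 12 * e ^ 2 * (1 + z) ^ p * KK e z ^ 2

noncomputable def g3 (p e z : ℝ) : ℝ := p * (p - 1) * (p - 2) * (1 + z) ^ (p - 3) * KK e z ^ 4 -
  12 * e * p * (p - 1) * (1 + z) ^ (p - 2) * KK e z ^ 3 + 36 * e ^ 2 * p * (1 + z) ^ (p - 1) * KK e z ^ 2 -
    24 * e ^ 3 * (1 + z) ^ p * KK e z

theorem dK (n : ℕ) (e z : ℝ) : HasDerivAt (fun z => KK e z ^ (n + 2)) (-(((n : ℝ) + 2) * e * KK e z ^ (n + 1))) z := by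
  have h1 : HasDerivAt (fun z : ℝ => 1 - z * e) (-e) z := by
    have h := ((hasDerivAt_id z).mul_const e).const_sub 1
    rw [one_mul] at h
    exact h
  have h := (hpos n (1 - z * e)).comp z h1
  have e1 : ((n : ℝ) + 2) * (max 0 (1 - z * e)) ^ (n + 1) * (-e) = -(((n : ℝ) + 2) * e * KK e z ^ (n + 1)) := by
    unfold KK
    ring
  rw [e1] at h
  exact h

theorem dh (q : ℝ) {z : ℝ} (hz : 0 ≤ z) : HasDerivAt (fun z : ℝ => (1 + z) ^ q) (q * (1 + z) ^ (q - 1)) z := by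
  have h := ((hasDerivAt_id z).const_add 1).rpow_const (p := q) (Or.inl (by
    change (1 + z) ≠ 0
    positivity))
  rw [one_mul] at h
  exact h

theorem d0 (p e : ℝ) {z : ℝ} (hz : 0 ≤ z) : HasDerivAt (g0 p e) (g1 p e z) z := by
  have h := (dh p hz).mul (dK 2 e z)
  have e1 : p * (1 + z) ^ (p - 1) * KK e z ^ (2 + 2) + (1 + z) ^ p * (-((((2 : ℕ) : ℝ) + 2) * e * KK e z ^ (2 + 1))) =
      g1 p e z := by
    unfold g1
    push_cast
    ring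
  rw [e1] at h
  exact h

theorem d1 (p e : ℝ) {z : ℝ} (hz : 0 ≤ z) : HasDerivAt (g1 p e) (g2 p e z) z := by
  have h := (((dh (p - 1) hz).const_mul p).mul (dK 2 e z)).sub (((dh p hz).const_mul (4 * e)).mul (dK 1 e z))
  have e1 : p * ((p - 1) * (1 + z) ^ (p - 1 - 1)) * KK e z ^ (2 + 2) +
      p * (1 + z) ^ (p - 1) * (-((((2 : ℕ) : ℝ) + 2) * e * KK e z ^ (2 + 1))) -
      (4 * e * (p * (1 + z) ^ (p - 1)) * KK e z ^ (1 + 2) +
        4 * e * (1 + z) ^ p * (-((((1 : ℕ) : ℝ) + 2) * e * KK e z ^ (1 + 1)))) = g2 p e z := by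
    unfold g2
    have : p - 1 - 1 = p - 2 := by ring
    rw [this]
    push_cast
    ring
  rw [e1] at h
  exact h

theorem d2 (p e : ℝ) {z : ℝ} (hz : 0 ≤ z) : HasDerivAt (g2 p e) (g3 p e z) z := by
  have h := ((((dh (p - 2) hz).const_mul (p * (p - 1))).mul (dK 2 e z)).sub
    (((dh (p - 1) hz).const_mul (8 * e * p)).mul (dK 1 e z))).add
      (((dh p hz).const_mul (12 * e ^ 2)).mul (dK 0 e z))
  have e1 : p * (p - 1) * ((p - 2) * (1 + z) ^ (p - 2 - 1)) * KK e z ^ (2 + 2) +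
      p * (p - 1) * (1 + z) ^ (p - 2) * (-((((2 : ℕ) : ℝ) + 2) * e * KK e z ^ (2 + 1))) -
      (8 * e * p * ((p - 1) * (1 + z) ^ (p - 1 - 1)) * KK e z ^ (1 + 2) +
        8 * e * p * (1 + z) ^ (p - 1) * (-((((1 : ℕ) : ℝ) + 2) * e * KK e z ^ (1 + 1)))) +
      (12 * e ^ 2 * (p * (1 + z) ^ (p - 1)) * KK e z ^ (0 + 2) +
        12 * e ^ 2 * (1 + z) ^ p * (-((((0 : ℕ) : ℝ) + 2) * e * KK e z ^ (0 + 1)))) = g3 p e z := by
    unfold g3
    have h1 : p - 1 - 1 = p - 2 := by ring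
    have h2 : p - 2 - 1 = p - 3 := by ring
    rw [h1, h2]
    push_cast
    ring
  rw [e1] at h
  exact h

/-- bounds -/
theorem KK_nonneg (e z : ℝ) : 0 ≤ KK e z := le_max_left _ _

theorem KK_le {e z : ℝ} (he : 0 ≤ e) (hz : 0 ≤ z) : KK e z ≤ 1 :=
  max_le zero_le_one (by nlinarith [mul_nonneg hz he])

theorem KK_zero {e z : ℝ} (h : 1 ≤ z * e) : KK e z = 0 := max_eq_left (by linarith)

theorem abs_mul3 {a b c A : ℝ} (ha : |a| ≤ A) (hb0 : 0 ≤ b) (hb : b ≤ 1) (hc0 : 0 ≤ c) (hc : c ≤ 1) : |a * b * c| ≤ A := by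
  rw [abs_mul, abs_mul, abs_of_nonneg hb0, abs_of_nonneg hc0]
  have h1 : |a| * b ≤ |a| := mul_le_of_le_one_right (abs_nonneg _) hb
  have h2 : |a| * b * c ≤ |a| * b := mul_le_of_le_one_right (mul_nonneg (abs_nonneg _) hb0) hc
  linarith

theorem bounds {s e z S : ℝ} (hs : 0 < s) (he : 0 ≤ e) (he1 : e ≤ 1) (hz : 0 ≤ z) (hS : S = s / 2 + 2) :
    |g2 (-(s / 2)) e z| ≤ 21 * S ^ 3 ∧ |g3 (-(s / 2)) e z| ≤ 73 * S ^ 3 := by
  obtain ⟨p, hp⟩ : ∃ p : ℝ, p = -(s / 2) := ⟨_, rfl⟩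
  rw [← hp]
  have hS1 : 1 ≤ S := by linarith
  have hS0 : 0 ≤ S := by linarith
  have p0 : |p| ≤ S := by rw [abs_le]; constructor <;> linarith
  have p1 : |p - 1| ≤ S := by rw [abs_le]; constructor <;> linarith
  have p2 : |p - 2| ≤ S := by rw [abs_le]; constructor <;> linarith
  have hh : ∀ q : ℝ, q ≤ 0 → 0 ≤ (1 + z) ^ q ∧ (1 + z) ^ q ≤ 1 := fun q hq =>
    ⟨Real.rpow_nonneg (by linarith) _, Real.rpow_le_one_of_one_le_of_nonpos (by linarith) hq⟩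
  have hK : ∀ n : ℕ, 0 ≤ KK e z ^ n ∧ KK e z ^ n ≤ 1 := fun n =>
    ⟨pow_nonneg (KK_nonneg _ _) _, pow_le_one₀ (KK_nonneg _ _) (KK_le he hz)⟩
  have hpn : p ≤ 0 := by linarith
  have S12 : S ≤ S ^ 2 := by nlinarith
  have S23 : S ^ 2 ≤ S ^ 3 := by nlinarith [mul_nonneg (sq_nonneg S) (sub_nonneg.2 hS1)]
  have hpp : |p * (p - 1)| ≤ S ^ 2 := by
    rw [abs_mul, pow_two]
    exact mul_le_mul p0 p1 (abs_nonneg _) hS0
  have hppp : |p * (p - 1) * (p - 2)| ≤ S ^ 3 := by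
    rw [abs_mul, pow_succ]
    exact mul_le_mul hpp p2 (abs_nonneg _) (by positivity)
  have e2 : e ^ 2 ≤ 1 := pow_le_one₀ he he1
  have e3 : e ^ 3 ≤ 1 := pow_le_one₀ he he1
  constructor
  · unfold g2
    have a1 := abs_mul3 hpp (hh (p - 2) (by linarith)).1 (hh (p - 2) (by linarith)).2 (hK 4).1 (hK 4).2
    have a2 : |8 * e * p * (1 + z) ^ (p - 1) * KK e z ^ 3| ≤ 8 * S := by
      refine abs_mul3 ?_ (hh (p - 1) (by linarith)).1 (hh (p - 1) (by linarith)).2 (hK 3).1 (hK 3).2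
      rw [abs_mul, abs_of_nonneg (by positivity)]
      exact mul_le_mul (by linarith) p0 (abs_nonneg _) (by norm_num)
    have a3 : |12 * e ^ 2 * (1 + z) ^ p * KK e z ^ 2| ≤ 12 := by
      refine abs_mul3 ?_ (hh p hpn).1 (hh p hpn).2 (hK 2).1 (hK 2).2
      rw [abs_of_nonneg (by positivity)]
      linarith
    rw [abs_le] at a1 a2 a3 ⊢
    constructor <;> linarith
  · unfold g3
    have a1 := abs_mul3 hppp (hh (p - 3) (by linarith)).1 (hh (p - 3) (by linarith)).2 (hK 4).1 (hK 4).2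
    have a2 : |12 * e * p * (p - 1) * (1 + z) ^ (p - 2) * KK e z ^ 3| ≤ 12 * S ^ 2 := by
      refine abs_mul3 ?_ (hh (p - 2) (by linarith)).1 (hh (p - 2) (by linarith)).2 (hK 3).1 (hK 3).2
      rw [mul_assoc (12 * e), abs_mul, abs_of_nonneg (show 0 ≤ 12 * e by positivity)]
      exact mul_le_mul (by linarith) hpp (abs_nonneg _) (by norm_num)
    have a3 : |36 * e ^ 2 * p * (1 + z) ^ (p - 1) * KK e z ^ 2| ≤ 36 * S := by
      refine abs_mul3 ?_ (hh (p - 1) (by linarith)).1 (hh (p - 1) (by linarith)).2 (hK 2).1 (hK 2).2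
      rw [abs_mul, abs_of_nonneg (by positivity)]
      exact mul_le_mul (by linarith) p0 (abs_nonneg _) (by norm_num)
    have a4 : |24 * e ^ 3 * (1 + z) ^ p * KK e z| ≤ 24 := by
      have h := hK 1
      rw [pow_one] at h
      refine abs_mul3 ?_ (hh p hpn).1 (hh p hpn).2 h.1 h.2
      rw [abs_of_nonneg (by positivity)]
      linarith
    rw [abs_le] at a1 a2 a3 a4 ⊢
    constructor <;> linarith

theorem gzero {p e z : ℝ} (h : 1 ≤ z * e) : g2 p e z = 0 ∧ g3 p e z = 0 := by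
  unfold g2 g3
  rw [KK_zero h]
  constructor <;> ring

theorem compd {g g' Z : ℝ → ℝ} {Z' t : ℝ} (h : HasDerivAt g (g' (Z t)) (Z t)) (hZ : HasDerivAt Z Z' t) :
    HasDerivAt (fun t => g (Z t)) (g' (Z t) * Z') t := HasDerivAt.comp t h hZ

/-- the expansion in one variable -/
theorem main1 {s M al w U : ℝ} (hs : 0 < s) (hM : 1 ≤ M) (hal : 0 ≤ al) (hw : 0 ≤ w) (hU : |U| ≤ al * w) :
    |g0 (-(s / 2)) (1 / M ^ 2) (al ^ 2 - 2 * U + w ^ 2) - g0 (-(s / 2)) (1 / M ^ 2) (al ^ 2) -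
      g1 (-(s / 2)) (1 / M ^ 2) (al ^ 2) * (-2 * U) -
        (2 * g2 (-(s / 2)) (1 / M ^ 2) (al ^ 2) * U ^ 2 + g1 (-(s / 2)) (1 / M ^ 2) (al ^ 2) * w ^ 2)| ≤
      (836 * (s / 2 + 2) ^ 3 * M ^ 3) * w ^ 3 := by
  obtain ⟨p, hp⟩ : ∃ p : ℝ, p = -(s / 2) := ⟨_, rfl⟩
  obtain ⟨e, he⟩ : ∃ e : ℝ, e = 1 / M ^ 2 := ⟨_, rfl⟩
  obtain ⟨S, hS⟩ : ∃ S : ℝ, S = s / 2 + 2 := ⟨_, rfl⟩
  have hM0 : 0 < M := by linarith
  have he0 : 0 < e := by rw [he]; positivity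
  have he1 : e ≤ 1 := by
    rw [he, div_le_one (by positivity)]
    exact one_le_pow₀ hM
  have hb := fun z hz => bounds (z := z) hs he0.le he1 hz hS
  rw [← hp, ← he, ← hS]
  rw [← hp] at hb
  rw [abs_le] at hU
  -- the quadratic polynomial
  have hz : ∀ t ∈ Set.Icc (0 : ℝ) 1, 0 ≤ al ^ 2 - 2 * U * t + w ^ 2 * t ^ 2 := by
    intro t ht
    have h1 : U * t ≤ al * w * t := mul_le_mul_of_nonneg_right hU.2 ht.1
    nlinarith [sq_nonneg (al - w * t)]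
  have hzd : ∀ t : ℝ, HasDerivAt (fun t : ℝ => al ^ 2 - 2 * U * t + w ^ 2 * t ^ 2) (2 * (w ^ 2 * t - U)) t := by
    intro t
    have h := (((hasDerivAt_id t).const_mul (2 * U)).const_sub (al ^ 2)).add ((hasDerivAt_pow 2 t).const_mul (w ^ 2))
    have e1 : -(2 * U * 1) + w ^ 2 * (((2 : ℕ) : ℝ) * t ^ (2 - 1)) = 2 * (w ^ 2 * t - U) := by
      norm_num
      ring
    rw [e1] at h
    exact h
  have hz'd : ∀ t : ℝ, HasDerivAt (fun t : ℝ => 2 * (w ^ 2 * t - U)) (2 * w ^ 2) t := by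
    intro t
    have h := (((hasDerivAt_id t).const_mul (w ^ 2)).sub_const U).const_mul 2
    rw [mul_one] at h
    exact h
  have T0 : ∀ t ∈ Set.Icc (0 : ℝ) 1, HasDerivAt (fun t => g0 p e (al ^ 2 - 2 * U * t + w ^ 2 * t ^ 2))
      (g1 p e (al ^ 2 - 2 * U * t + w ^ 2 * t ^ 2) * (2 * (w ^ 2 * t - U))) t := fun t ht =>
    compd (g := g0 p e) (g' := g1 p e) (Z := fun t : ℝ => al ^ 2 - 2 * U * t + w ^ 2 * t ^ 2) (d0 p e (hz t ht)) (hzd t)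
  have T1' : ∀ t ∈ Set.Icc (0 : ℝ) 1, HasDerivAt (fun t => g1 p e (al ^ 2 - 2 * U * t + w ^ 2 * t ^ 2))
      (g2 p e (al ^ 2 - 2 * U * t + w ^ 2 * t ^ 2) * (2 * (w ^ 2 * t - U))) t := fun t ht =>
    compd (g := g1 p e) (g' := g2 p e) (Z := fun t : ℝ => al ^ 2 - 2 * U * t + w ^ 2 * t ^ 2) (d1 p e (hz t ht)) (hzd t)
  have T2' : ∀ t ∈ Set.Icc (0 : ℝ) 1, HasDerivAt (fun t => g2 p e (al ^ 2 - 2 * U * t + w ^ 2 * t ^ 2))
      (g3 p e (al ^ 2 - 2 * U * t + w ^ 2 * t ^ 2) * (2 * (w ^ 2 * t - U))) t := fun t ht =>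
    compd (g := g2 p e) (g' := g3 p e) (Z := fun t : ℝ => al ^ 2 - 2 * U * t + w ^ 2 * t ^ 2) (d2 p e (hz t ht)) (hzd t)
  have T1 : ∀ t ∈ Set.Icc (0 : ℝ) 1, HasDerivAt
      (fun t => g1 p e (al ^ 2 - 2 * U * t + w ^ 2 * t ^ 2) * (2 * (w ^ 2 * t - U)))
      (g2 p e (al ^ 2 - 2 * U * t + w ^ 2 * t ^ 2) * (2 * (w ^ 2 * t - U)) ^ 2 +
        g1 p e (al ^ 2 - 2 * U * t + w ^ 2 * t ^ 2) * (2 * w ^ 2)) t := by
    intro t ht
    have h := (T1' t ht).mul (hz'd t)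
    have e1 : g2 p e (al ^ 2 - 2 * U * t + w ^ 2 * t ^ 2) * (2 * (w ^ 2 * t - U)) * (2 * (w ^ 2 * t - U)) +
        g1 p e (al ^ 2 - 2 * U * t + w ^ 2 * t ^ 2) * (2 * w ^ 2) =
        g2 p e (al ^ 2 - 2 * U * t + w ^ 2 * t ^ 2) * (2 * (w ^ 2 * t - U)) ^ 2 +
        g1 p e (al ^ 2 - 2 * U * t + w ^ 2 * t ^ 2) * (2 * w ^ 2) := by ring
    rw [e1] at h
    exact h
  have T2 : ∀ t ∈ Set.Icc (0 : ℝ) 1, HasDerivAt
      (fun t => g2 p e (al ^ 2 - 2 * U * t + w ^ 2 * t ^ 2) * (2 * (w ^ 2 * t - U)) ^ 2 +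
        g1 p e (al ^ 2 - 2 * U * t + w ^ 2 * t ^ 2) * (2 * w ^ 2))
      (g3 p e (al ^ 2 - 2 * U * t + w ^ 2 * t ^ 2) * (2 * (w ^ 2 * t - U)) ^ 3 +
        6 * w ^ 2 * g2 p e (al ^ 2 - 2 * U * t + w ^ 2 * t ^ 2) * (2 * (w ^ 2 * t - U))) t := by
    intro t ht
    have h : HasDerivAt
      (fun t => g2 p e (al ^ 2 - 2 * U * t + w ^ 2 * t ^ 2) * (2 * (w ^ 2 * t - U)) ^ 2 +
        g1 p e (al ^ 2 - 2 * U * t + w ^ 2 * t ^ 2) * (2 * w ^ 2))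
      (g3 p e (al ^ 2 - 2 * U * t + w ^ 2 * t ^ 2) * (2 * (w ^ 2 * t - U)) * (2 * (w ^ 2 * t - U)) ^ 2 +
        g2 p e (al ^ 2 - 2 * U * t + w ^ 2 * t ^ 2) * (((2 : ℕ) : ℝ) * (2 * (w ^ 2 * t - U)) ^ (2 - 1) * (2 * w ^ 2)) +
        g2 p e (al ^ 2 - 2 * U * t + w ^ 2 * t ^ 2) * (2 * (w ^ 2 * t - U)) * (2 * w ^ 2)) t :=
      ((T2' t ht).mul ((hz'd t).pow 2)).add ((T1' t ht).mul_const (2 * w ^ 2))
    have e1 : g3 p e (al ^ 2 - 2 * U * t + w ^ 2 * t ^ 2) * (2 * (w ^ 2 * t - U)) * (2 * (w ^ 2 * t - U)) ^ 2 +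
        g2 p e (al ^ 2 - 2 * U * t + w ^ 2 * t ^ 2) * (((2 : ℕ) : ℝ) * (2 * (w ^ 2 * t - U)) ^ (2 - 1) * (2 * w ^ 2)) +
        g2 p e (al ^ 2 - 2 * U * t + w ^ 2 * t ^ 2) * (2 * (w ^ 2 * t - U)) * (2 * w ^ 2) =
        g3 p e (al ^ 2 - 2 * U * t + w ^ 2 * t ^ 2) * (2 * (w ^ 2 * t - U)) ^ 3 +
        6 * w ^ 2 * g2 p e (al ^ 2 - 2 * U * t + w ^ 2 * t ^ 2) * (2 * (w ^ 2 * t - U)) := by
      norm_num
      ring
    rw [e1] at h
    exact h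
  have hS0 : 0 ≤ S := by linarith
  have hT := taylor T0 T1 T2 (B := (836 * S ^ 3 * M ^ 3) * w ^ 3) (by
    intro t ht
    obtain ⟨z, hzz⟩ : ∃ z : ℝ, z = al ^ 2 - 2 * U * t + w ^ 2 * t ^ 2 := ⟨_, rfl⟩
    have hz0 : 0 ≤ z := hzz ▸ hz t ht
    rw [← hzz]
    have hB0 : 0 ≤ (836 * S ^ 3 * M ^ 3) * w ^ 3 := by positivity
    rcases le_or_gt 1 (z * e) with h | h
    · obtain ⟨q1, q2⟩ := gzero (p := p) h
      rw [q1, q2]
      have e1 : (0 : ℝ) * (2 * (w ^ 2 * t - U)) ^ 3 + 6 * w ^ 2 * 0 * (2 * (w ^ 2 * t - U)) = 0 := by ring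
      rw [e1, abs_zero]
      exact hB0
    · have hzM : z < M ^ 2 := by
        rw [he, mul_one_div, div_lt_one (by positivity)] at h
        exact h
      obtain ⟨D, hD⟩ : ∃ D : ℝ, D = w ^ 2 * t - U := ⟨_, rfl⟩
      rw [← hD]
      have hD2 : D ^ 2 ≤ (M * w) ^ 2 := by
        have h1 : D ^ 2 ≤ z * w ^ 2 := by
          have h2 : U ^ 2 ≤ (al * w) ^ 2 := sq_le_sq' hU.1 hU.2
          rw [hD, hzz]
          nlinarith
        have h3 : z * w ^ 2 ≤ M ^ 2 * w ^ 2 := mul_le_mul_of_nonneg_right hzM.le (sq_nonneg w)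
        rw [mul_pow]
        exact h1.trans h3
      have hDa : |D| ≤ M * w := abs_le_of_sq_le_sq hD2 (by positivity)
      obtain ⟨b2, b3⟩ := hb z hz0
      have c1 : |g3 p e z * (2 * D) ^ 3| ≤ 73 * S ^ 3 * (8 * (M * w) ^ 3) := by
        rw [abs_mul, abs_pow, abs_mul, abs_of_pos (show (0 : ℝ) < 2 by norm_num)]
        refine mul_le_mul b3 ?_ (by positivity) (by positivity)
        rw [mul_pow]
        have : |D| ^ 3 ≤ (M * w) ^ 3 := pow_le_pow_left₀ (abs_nonneg _) hDa 3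
        linarith
      have c2 : |6 * w ^ 2 * g2 p e z * (2 * D)| ≤ 6 * w ^ 2 * (21 * S ^ 3) * (2 * (M * w)) := by
        rw [abs_mul, abs_mul, abs_of_nonneg (show (0 : ℝ) ≤ 6 * w ^ 2 by positivity), abs_mul 2 D,
          abs_of_pos (show (0 : ℝ) < 2 by norm_num)]
        refine mul_le_mul (mul_le_mul_of_nonneg_left b2 (by positivity)) (by linarith) (by positivity) (by positivity)
      have c3 : M ≤ M ^ 3 := by
        have : (1 : ℝ) ≤ M ^ 2 := one_le_pow₀ hM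
        nlinarith
      have c4 : M * (S ^ 3 * w ^ 3) ≤ M ^ 3 * (S ^ 3 * w ^ 3) := mul_le_mul_of_nonneg_right c3 (by positivity)
      refine (abs_add_le _ _).trans ?_
      nlinarith)
  have e0 : al ^ 2 - 2 * U * 1 + w ^ 2 * 1 ^ 2 = al ^ 2 - 2 * U + w ^ 2 := by ring
  have e1 : al ^ 2 - 2 * U * 0 + w ^ 2 * 0 ^ 2 = al ^ 2 := by ring
  rw [e0, e1] at hT
  have e2 : g0 p e (al ^ 2 - 2 * U + w ^ 2) - g0 p e (al ^ 2) - g1 p e (al ^ 2) * (-2 * U) -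
      (2 * g2 p e (al ^ 2) * U ^ 2 + g1 p e (al ^ 2) * w ^ 2) =
      g0 p e (al ^ 2 - 2 * U + w ^ 2) - g0 p e (al ^ 2) - g1 p e (al ^ 2) * (2 * (w ^ 2 * 0 - U)) -
      (g2 p e (al ^ 2) * (2 * (w ^ 2 * 0 - U)) ^ 2 + g1 p e (al ^ 2) * (2 * w ^ 2)) / 2 := by ring
  rw [e2]
  exact hT

end TayCM

open TayCM in
/-- Taylor expansion of the truncated weight -/
theorem hTayC (hW : StW) (hFs : StFs) : StTayC := by
  intro s M hs hM
  have hM0 : 0 < M := by linarith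
  have hS : 1 ≤ s / 2 + 2 := by linarith
  refine ⟨836 * (s / 2 + 2) ^ 3 * M ^ 3, ?_, ?_⟩
  · have h1 : (1 : ℝ) ≤ (s / 2 + 2) ^ 3 := one_le_pow₀ hS
    have h2 : (1 : ℝ) ≤ M ^ 3 := one_le_pow₀ hM
    nlinarith [mul_le_mul h1 h2 zero_le_one (by positivity)]
  · intro d m x hd hm
    have hm0 : 0 < m := by linarith
    obtain ⟨w1, w2, w3, -⟩ := hW d m hm
    obtain ⟨x1, x2, x3, -, -, -⟩ := w1 x
    -- the weight in terms of `g0`
    have hwc : ∀ u : Zd d, wc s m (M * m) u = g0 (-(s / 2)) (1 / M ^ 2) (LE.sq u / m ^ 2) := by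
      intro u
      unfold wc ww ct g0 KK qq
      have e1 : LE.sq u / (M * m) ^ 2 = LE.sq u / m ^ 2 * (1 / M ^ 2) := by
        field_simp
      rw [e1]
    obtain ⟨G1, hG1⟩ : ∃ G1 : ℝ, G1 = g1 (-(s / 2)) (1 / M ^ 2) (LE.sq x / m ^ 2) := ⟨_, rfl⟩
    obtain ⟨G2, hG2⟩ : ∃ G2 : ℝ, G2 = g2 (-(s / 2)) (1 / M ^ 2) (LE.sq x / m ^ 2) := ⟨_, rfl⟩
    refine ⟨-2 * G1 / m ^ 2, 2 * G2 / m ^ 4, G1 / m ^ 2, ?_, ?_⟩
    · intro y
      obtain ⟨y1, y2, y3, -, -, -⟩ := w1 y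
      obtain ⟨-, v2, v3⟩ := w2 x y
      have hal : 0 ≤ nn x / m := div_nonneg x2 hm0.le
      have hw : 0 ≤ nn y / m := div_nonneg y2 hm0.le
      have hU : |dt x y / m ^ 2| ≤ nn x / m * (nn y / m) := by
        rw [abs_div, abs_of_pos (show 0 < m ^ 2 by positivity), div_mul_div_comm, ← pow_two]
        exact div_le_div_of_nonneg_right v2 (by positivity)
      have h := main1 hs hM hal hw hU
      have f1 : (nn x / m) ^ 2 = LE.sq x / m ^ 2 := by rw [div_pow, x3]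
      have f2 : (nn y / m) ^ 2 = LE.sq y / m ^ 2 := by rw [div_pow, y3]
      have f3 : LE.sq x / m ^ 2 - 2 * (dt x y / m ^ 2) + LE.sq y / m ^ 2 = LE.sq (x - y) / m ^ 2 := by
        unfold qq at v3
        linear_combination -v3
      rw [f1, f2, f3, ← hwc, ← hwc, ← hG1, ← hG2] at h
      have f4 : wc s m (M * m) (x - y) - wc s m (M * m) x - -2 * G1 / m ^ 2 * dt x y - 2 * G2 / m ^ 4 * dt x y ^ 2 -
          G1 / m ^ 2 * LE.sq y = wc s m (M * m) (x - y) - wc s m (M * m) x - G1 * (-2 * (dt x y / m ^ 2)) -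
          (2 * G2 * (dt x y / m ^ 2) ^ 2 + G1 * (LE.sq y / m ^ 2)) := by
        field_simp
        ring
      rw [f4]
      exact h
    · obtain ⟨z, hz⟩ : ∃ z : ℝ, z = LE.sq x / m ^ 2 := ⟨_, rfl⟩
      have hz0 : 0 ≤ z := by
        rw [hz, ← x3]
        positivity
      have f1 : -(2 * (2 * G2 / m ^ 4) * LE.sq x + 2 * d * (G1 / m ^ 2)) * m ^ 2 = -(4 * G2 * z) - 2 * d * G1 := by
        rw [hz]
        field_simp
        ring
      rw [f1, hG1, hG2, ← hz]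
      have hfs : 0 ≤ fs s m x := by
        refine le_trans ?_ (hFs d s m x hm hs hd).1
        have h1 : 0 ≤ ww (s + 2) m x := Real.rpow_nonneg (by linarith [x1]) _
        have h2 : (0 : ℝ) ≤ d - s - 2 := by linarith
        positivity
      have hd0 : (0 : ℝ) < d := by linarith
      obtain ⟨e, he⟩ : ∃ e : ℝ, e = 1 / M ^ 2 := ⟨_, rfl⟩
      have he0 : 0 < e := by rw [he]; positivity
      obtain ⟨k, hk⟩ : ∃ k : ℝ, k = KK e z := ⟨_, rfl⟩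
      have hk0 : 0 ≤ k := hk ▸ KK_nonneg e z
      have hk1 : k ≤ 1 := hk ▸ KK_le he0.le hz0
      have hfe : fs s m x = s * d * (1 + z) ^ (-(s / 2) - 1) - s * (s + 2) * z * (1 + z) ^ (-(s / 2) - 2) := by
        unfold fs qq
        rw [hz]
      have hwe : ww s m x = (1 + z) ^ (-(s / 2)) := by
        unfold ww qq
        rw [hz]
      have q0 : 0 ≤ (1 + z) ^ (-(s / 2)) := Real.rpow_nonneg (by linarith) _
      have q1 : 0 ≤ (1 + z) ^ (-(s / 2) - 1) := Real.rpow_nonneg (by linarith) _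
      have f2 : -(4 * g2 (-(s / 2)) e z * z) - 2 * d * g1 (-(s / 2)) e z =
          k ^ 4 * fs s m x + 8 * d * e * (1 + z) ^ (-(s / 2)) * k ^ 3 -
            (16 * e * s * z * (1 + z) ^ (-(s / 2) - 1) * k ^ 3 + 48 * e ^ 2 * z * (1 + z) ^ (-(s / 2)) * k ^ 2) := by
        unfold g1 g2
        rw [← hk, hfe]
        ring
      rw [← he, f2, hwe]
      have r1 : k ^ 4 * fs s m x ≤ fs s m x := mul_le_of_le_one_left hfs (pow_le_one₀ hk0 hk1)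
      have r2 : 8 * d * e * (1 + z) ^ (-(s / 2)) * k ^ 3 ≤ 8 * d * e * (1 + z) ^ (-(s / 2)) :=
        mul_le_of_le_one_right (by positivity) (pow_le_one₀ hk0 hk1)
      have r3 : 0 ≤ 16 * e * s * z * (1 + z) ^ (-(s / 2) - 1) * k ^ 3 := by positivity
      have r4 : 0 ≤ 48 * e ^ 2 * z * (1 + z) ^ (-(s / 2)) * k ^ 2 := by positivity
      have r5 : 8 * d / M ^ 2 * (1 + z) ^ (-(s / 2)) = 8 * d * e * (1 + z) ^ (-(s / 2)) := by
        rw [he]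
        ring
      rw [r5]
      linarith

end Pool.KD
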